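import Pool.Agent.V11207.SC

/-!
# Front and back full twists commute up to self-crossing changes

Gauss diagrams, the Reidemeister moves `Reidemeister` (renaming of arrows, exchange of neighbouring
ends on different strands, R1, R2, R3), the moves `OvercrossingsCommute` and `SelfCrossingChange` and
the lists `IsMonotone` are those of the starting library `Pool.Agent.W612.WSL.Defs`; as there, a
virtual string link diagram up to planar isotopy and the virtual and mixed moves is its Gauss diagram.
`Pool.Agent.V11207.SC` contains the Gauss diagrams `L0, ..., L32` and the moves between them.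
-/

set_option autoImplicit false

namespace Pool.Agent.Results.MP_dfcdcf_gt.CommutingTwists

open Pool.Agent.W612.WSL Pool.Agent.V11207.SC

/-- A Gauss diagram is monotone if it has no self-crossings and all its arrows can be numbered in a
way which is compatible with the orders along all strands: on each strand, its ends come in the same
order as in the list of the ends of the first arrow, the ends of the second arrow, and so on. -/
def Monotone {n : ℕ} (w : List (End n)) : Prop :=
  ∃ v : List (End n), IsMonotone v ∧
    ∀ s : Fin n, w.filter (fun x => strand x = s) = v.filter (fun x => strand x = s)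

/-- Monotone Gauss diagrams on `n` strands. -/
abbrev Braid (n : ℕ) : Type := {w : List (End n) // IsGauss w ∧ Monotone w}

/-- The virtual pure braid group `vP_n` (its set of elements): monotone diagrams modulo
Reidemeister moves between monotone diagrams. -/
def VP (n : ℕ) : Type := Quot fun v w : Braid n => Reidemeister v.1 w.1

/-- The welded pure braid group `wP_n` (its set of elements): the moves between monotone diagrams
are the Reidemeister moves and `overcrossings commute`. -/
def WP (n : ℕ) : Type := Quot fun v w : Braid n => Reidemeister v.1 w.1 ∨ OvercrossingsCommute v.1 w.1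

/-- The set `vSL_n^sc` of virtual string links on `n` strands up to self-crossing changes: all Gauss
diagrams modulo the Reidemeister moves and self-crossing changes. -/
def VSLsc (n : ℕ) : Type := Quot fun v w : Diagram n => Reidemeister v.1 w.1 ∨ SelfCrossingChange v.1 w.1

/-- The natural map `vP_n → wP_n`. -/
def VP.toWP {n : ℕ} : VP n → WP n := Quot.map id fun _ _ h => Or.inl h

/-- The natural map `vP_n → vSL_n^sc`, whose image is `vP_n^sc`. -/
def VP.toVSLsc {n : ℕ} : VP n → VSLsc n :=
  Quot.map (fun w : Braid n => (⟨w.1, w.2.1⟩ : Diagram n)) fun _ _ h => Or.inl h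

/-- The natural map `wP_n → wSL_n^sc`, whose image is `wP_n^sc`. -/
def WP.toWSLsc {n : ℕ} : WP n → WSLsc n :=
  Quot.map (fun w : Braid n => (⟨w.1, w.2.1⟩ : Diagram n)) fun _ _ h =>
    h.elim (fun h => Or.inl h) fun h => Or.inr (Or.inl h)

theorem isGauss_nil {n : ℕ} : IsGauss ([] : List (End n)) := ⟨List.nodup_nil, by simp⟩

theorem monotone_nil {n : ℕ} : Monotone ([] : List (End n)) :=
  ⟨[], ⟨[], by simp, by simp⟩, fun _ => rfl⟩

/-- The trivial braid. -/
def VP.one (n : ℕ) : VP n := Quot.mk _ ⟨[], isGauss_nil, monotone_nil⟩

/-! ### The invariant of welded pure braids on two strands -/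

/-- The letter read at an end of an arrow, if the end lies on the strand `0`. -/
def letter (x : End 2) : FreeGroup Bool :=
  if strand x = 0 then FreeGroup.mk [(x.2, x.1.pos)] else 1

/-- The word read along the strand `0`. -/
def word (w : List (End 2)) : FreeGroup Bool := (w.map letter).prod

theorem word_append (v w : List (End 2)) : word (v ++ w) = word v * word w := by
  simp [word]

theorem word_cons (x : End 2) (w : List (End 2)) : word (x :: w) = letter x * word w := by
  simp [word]

theorem mk_cancel : ∀ b p q : Bool, p ≠ q →
    FreeGroup.mk [(b, p)] * FreeGroup.mk [(b, q)] = (1 : FreeGroup Bool) := by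
  decide

theorem mk_comm : ∀ b p q : Bool,
    FreeGroup.mk [(b, p)] * FreeGroup.mk [(b, q)] =
      (FreeGroup.mk [(b, q)] * FreeGroup.mk [(b, p)] : FreeGroup Bool) := by
  decide

theorem letter_cancel (α β : Arrow 2) (hs : α.src = β.src) (ht : α.tgt = β.tgt)
    (hp : α.pos ≠ β.pos) (e : Bool) : letter (α, e) * letter (β, e) = 1 := by
  have h : strand (α, e) = strand (β, e) := by cases e <;> simp [strand, hs, ht]
  unfold letter
  by_cases h0 : strand (β, e) = 0
  · rw [h, if_pos h0, if_pos h0]
    exact mk_cancel e α.pos β.pos hp
  · rw [h, if_neg h0, if_neg h0, one_mul]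

theorem letter_comm (α β : Arrow 2) (hs : α.src = β.src) :
    letter (α, true) * letter (β, true) = letter (β, true) * letter (α, true) := by
  have h : strand (α, true) = strand (β, true) := by simp [strand, hs]
  unfold letter
  by_cases h0 : strand (β, true) = 0
  · rw [h, if_pos h0, if_pos h0]
    exact mk_comm true α.pos β.pos
  · rw [h, if_neg h0, if_neg h0]

theorem strand_ren {n : ℕ} (g : ℕ → ℕ) (x : End n) : strand (ren g x) = strand x := by
  unfold strand ren Arrow.rename
  cases x.2 <;> rfl

theorem letter_ren (g : ℕ → ℕ) (x : End 2) : letter (ren g x) = letter x := by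
  unfold letter
  rw [strand_ren]
  rfl

theorem no_self {n : ℕ} {w : List (End n)} (h : Monotone w) : ∀ x ∈ w, x.1.src ≠ x.1.tgt := by
  obtain ⟨v, ⟨l, hl, rfl⟩, hv⟩ := h
  intro x hx
  have h1 : x ∈ w.filter (fun y => strand y = strand x) := by simp [hx]
  rw [hv (strand x)] at h1
  obtain ⟨α, hα, hx'⟩ := List.mem_flatMap.1 (List.mem_filter.1 h1).1
  simp only [List.mem_cons, List.not_mem_nil, or_false] at hx'
  rcases hx' with rfl | rfl <;> exact hl α hα

theorem word_reidemeister {v w : List (End 2)} (hv : ∀ x ∈ v, x.1.src ≠ x.1.tgt)
    (h : Reidemeister v w) : word v = word w := by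
  cases h with
  | rename g hg =>
    unfold word
    rw [List.map_map]
    exact congrArg List.prod (List.map_congr_left fun x _ => (letter_ren g x).symm)
  | far x y h A B =>
    simp only [word_append, word_cons]
    have : letter x * letter y = letter y * letter x := by
      unfold letter
      by_cases hx : strand x = 0
      · have hy : strand y ≠ 0 := fun hy => h (hx.trans hy.symm)
        rw [if_neg hy, mul_one, one_mul]
      · rw [if_neg hx, mul_one, one_mul]
    rw [← mul_assoc (letter x), this, mul_assoc]
  | r1 α h e A B => exact absurd h (hv (α, e) (by simp))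
  | r2_parallel α β hs ht hp e A B C =>
    simp only [word_append, word_cons]
    rw [← mul_assoc (letter (α, e)), letter_cancel α β hs ht hp e,
      ← mul_assoc (letter (α, !e)), letter_cancel α β hs ht hp (!e)]
    simp only [one_mul]
  | r2_opposite α β hs ht hp e A B C =>
    simp only [word_append, word_cons]
    rw [← mul_assoc (letter (α, e)), letter_cancel α β hs ht hp e,
      ← mul_assoc (letter (β, !e)), letter_cancel β α hs.symm ht.symm hp.symm (!e)]
    simp only [one_mul]
  | r3 δ a b c hs hm ht p q r h A B C D =>
    exfalso
    have key : ∀ z : End 2 × End 2, z ∈ triangle δ a b c →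
        z.1.1.src ≠ z.1.1.tgt ∧ z.2.1.src ≠ z.2.1.tgt := by
      intro z hz
      have hz' := h.mem_iff.2 hz
      simp only [List.mem_cons, List.not_mem_nil, or_false] at hz'
      rcases hz' with rfl | rfl | rfl <;>
        exact ⟨hv _ (by simp), hv _ (by simp)⟩
    have h1 := key (order ((δ == a.pos) == (b.pos == c.pos)) (a, true) (b, true))
      (by simp [triangle])
    have h2 := key (order (δ == a.pos) (a, false) (c, true)) (by simp [triangle])
    have ha : a.src ≠ a.tgt := by
      unfold order at h1
      split at h1
      · exact h1.1
      · exact h1.2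
    have hb : b.src ≠ b.tgt := by
      unfold order at h1
      split at h1
      · exact h1.2
      · exact h1.1
    have hc : c.src ≠ c.tgt := by
      unfold order at h2
      split at h2
      · exact h2.2
      · exact h2.1
    have fin2 : ∀ x y z : Fin 2, x ≠ y → y ≠ z → x ≠ z → False := by decide
    exact fin2 a.src a.tgt c.tgt ha (by rw [hm]; exact hc) (by rw [hs, ← ht]; exact hb)

theorem word_overcrossings {v w : List (End 2)} (h : OvercrossingsCommute v w) :
    word v = word w := by
  cases h with
  | mk α β h A B =>
    simp only [word_append, word_cons]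
    rw [← mul_assoc (letter (α, true)), letter_comm α β h, mul_assoc]

/-- The word is an invariant of welded pure braids on two strands. -/
def wordW : WP 2 → FreeGroup Bool :=
  Quot.lift (fun w : Braid 2 => word w.1) fun v _ h =>
    h.elim (fun h => word_reidemeister (no_self v.2.2) h) word_overcrossings

theorem monotone_L0 : Monotone L0 := by
  refine ⟨[a0p, a1p, a2p, a3p, a4n, a5n, a6n, a7n].flatMap fun α => [(α, true), (α, false)],
    ⟨[a0p, a1p, a2p, a3p, a4n, a5n, a6n, a7n], by decide, rfl⟩, by decide⟩

/-- The commutator of the full twists `a c` and `c a`, where `a` is the positive crossing with strand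
`0` over strand `1` and `c` the positive crossing with strand `1` over strand `0`. -/
def beta : VP 2 := Quot.mk _ ⟨L0, g0, monotone_L0⟩

theorem beta_sc_trivial : VP.toVSLsc beta = VP.toVSLsc (VP.one 2) := chain

theorem beta_nontrivial : VP.toWP beta ≠ VP.toWP (VP.one 2) := fun h => by
  have h1 : word L0 = word [] := congrArg wordW h
  exact absurd h1 (by decide)

/-- **Neither `vP_2 → vP_2^sc` nor `wP_2 → wP_2^sc` is injective.** The virtual pure braid `beta` is
non-trivial even as a welded braid, but trivial as a virtual string link up to self-crossing changes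
(hence also as a welded string link up to self-crossing changes). -/
theorem result :
    VP.toVSLsc beta = VP.toVSLsc (VP.one 2) ∧ VP.toWP beta ≠ VP.toWP (VP.one 2) ∧
    ¬ Function.Injective (VP.toVSLsc : VP 2 → VSLsc 2) ∧
    ¬ Function.Injective (WP.toWSLsc : WP 2 → WSLsc 2) := by
  refine ⟨beta_sc_trivial, beta_nontrivial,
    fun h => beta_nontrivial (congrArg VP.toWP (h beta_sc_trivial)), ?_⟩
  let F : VSLsc 2 → WSLsc 2 := Quot.map id fun _ _ h =>
    h.elim (fun h => Or.inl h) fun h => Or.inr (Or.inr h)
  have hF : ∀ γ : VP 2, WP.toWSLsc (VP.toWP γ) = F (VP.toVSLsc γ) := by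
    rintro ⟨γ⟩
    rfl
  exact fun h => beta_nontrivial (h (by rw [hF, hF, beta_sc_trivial]))

end Pool.Agent.Results.MP_dfcdcf_gt.CommutingTwists
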